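import Mathlib

/-!
# Lookahead auctions: definitions

Single item auctions with finitely supported correlated valuations, and the `k`-lookahead mechanism.
-/

set_option autoImplicit false

open Finset

namespace Pool.Agent.Y581.Look

/-- A mechanism for the bidders in `ι`: `alloc v i` is the probability that bidder `i` gets the item
and `pay v i` her expected payment, when the reported valuation vector is `v`. It is truthful in
expectation and individually rational. -/
structure Mechanism (ι : Type) [Fintype ι] [DecidableEq ι] where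
  alloc : (ι → ℝ) → ι → ℝ
  pay : (ι → ℝ) → ι → ℝ
  alloc_nonneg : ∀ v, (∀ i, 0 < v i) → ∀ i, 0 ≤ alloc v i
  alloc_sum : ∀ v, (∀ i, 0 < v i) → ∑ i, alloc v i ≤ 1
  truthful : ∀ v, (∀ i, 0 < v i) → ∀ (i : ι) (b : ℝ), 0 < b →
    v i * alloc (Function.update v i b) i - pay (Function.update v i b) i ≤
      v i * alloc v i - pay v i
  rational : ∀ v, (∀ i, 0 < v i) → ∀ i, 0 ≤ v i * alloc v i - pay v i

/-- A finitely supported distribution of valuation vectors with positive entries. -/
structure ValueLaw (ι : Type) where
  supp : Finset (ι → ℝ)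
  prob : (ι → ℝ) → ℝ
  prob_pos : ∀ v ∈ supp, 0 < prob v
  prob_sum : ∑ v ∈ supp, prob v = 1
  val_pos : ∀ v ∈ supp, ∀ i, 0 < v i

/-- The expected revenue of the mechanism `M` under `D`. -/
noncomputable def revenue {ι : Type} [Fintype ι] [DecidableEq ι] (D : ValueLaw ι) (M : Mechanism ι) :
    ℝ :=
  ∑ v ∈ D.supp, D.prob v * ∑ i, M.pay v i

/-- `OPT(D)`: the largest expected revenue of a mechanism. -/
noncomputable def OPT {ι : Type} [Fintype ι] [DecidableEq ι] (D : ValueLaw ι) : ℝ :=
  sSup {r | ∃ M : Mechanism ι, r = revenue D M}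

/-- The set of the `k` highest bidders, ties broken by index: bidder `i` belongs to it if fewer than
`k` bidders precede her. -/
noncomputable def top {n : ℕ} (k : ℕ) (v : Fin n → ℝ) : Finset (Fin n) :=
  {i | #{j | v i < v j ∨ (v j = v i ∧ j < i)} < k}

/-- The valuation vectors in the support that agree with `v` outside `K` and in which every bidder
in `K` has at least the value `max_{j ∉ K} v j`. -/
noncomputable def consistent {n : ℕ} (D : ValueLaw (Fin n)) (K : Finset (Fin n)) (v : Fin n → ℝ) :
    Finset (Fin n → ℝ) :=
  {w ∈ D.supp | (∀ j, j ∉ K → w j = v j) ∧ ∀ i ∈ K, ∀ j, j ∉ K → v j ≤ w i}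

/-- The expected revenue of the mechanism `M` for the bidders in `K` under the conditional
distribution `D_K` (of the valuations in `K`, given the valuations `v j` with `j ∉ K` and given that
all the bidders in `K` have at least the value `max_{j ∉ K} v j`). -/
noncomputable def condRevenue {n : ℕ} (D : ValueLaw (Fin n)) (K : Finset (Fin n)) (v : Fin n → ℝ)
    (M : Mechanism K) : ℝ :=
  (∑ w ∈ consistent D K v, D.prob w * ∑ i, M.pay (fun j => w j) i) /
    ∑ w ∈ consistent D K v, D.prob w

/-- `A` describes a `k`-lookahead mechanism for `D`: if `K` is the set of the `k` highest bidders,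
then the bidders in `K` are served by the mechanism `A K z`, where `z` is the vector of the other
valuations, and this mechanism maximises the expected revenue under `D_K`. -/
def IsLookahead {n : ℕ} (k : ℕ) (D : ValueLaw (Fin n))
    (A : (K : Finset (Fin n)) → ({j // j ∉ K} → ℝ) → Mechanism K) : Prop :=
  ∀ v ∈ D.supp, ∀ M : Mechanism (top k v),
    condRevenue D (top k v) v M ≤ condRevenue D (top k v) v (A (top k v) (fun j => v j))

/-- The expected revenue under `D` of the `k`-lookahead mechanism described by `A`. -/
noncomputable def lookRevenue {n : ℕ} (k : ℕ) (D : ValueLaw (Fin n))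
    (A : (K : Finset (Fin n)) → ({j // j ∉ K} → ℝ) → Mechanism K) : ℝ :=
  ∑ v ∈ D.supp, D.prob v * ∑ i, (A (top k v) (fun j => v j)).pay (fun j => v j) i

/-- The approximation ratio `ρ_k` of the `k`-lookahead mechanism. -/
noncomputable def rho (k : ℕ) : EReal :=
  ⨅ (n : ℕ) (D : ValueLaw (Fin n)) (A : (K : Finset (Fin n)) → ({j // j ∉ K} → ℝ) → Mechanism K)
    (_ : IsLookahead k D A) (_ : 0 < OPT D), ((lookRevenue k D A / OPT D : ℝ) : EReal)

end Pool.Agent.Y581.Look
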