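import Mathlib
import Pool.Agent.Y581.Look.Defs

set_option autoImplicit false

open Finset

namespace Pool.Agent.Y581.Look

/-! ## Threshold mechanisms -/

section Threshold

variable {ι : Type} [Fintype ι] [DecidableEq ι]

/-- The zero mechanism. -/
def Mechanism.zero : Mechanism ι where
  alloc := fun _ _ => 0
  pay := fun _ _ => 0
  alloc_nonneg := fun _ _ _ => le_refl _
  alloc_sum := fun _ _ => by simp
  truthful := fun _ _ _ _ _ => le_refl _
  rational := fun _ _ _ => by simp

open Classical in
/-- Bidder `i` wins at the price `T i v` if `act i v` holds and `T i v ≤ v i`. -/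
noncomputable def Mechanism.threshold (act : ι → (ι → ℝ) → Prop) (T : ι → (ι → ℝ) → ℝ)
    (hact : ∀ i v b, act i (Function.update v i b) ↔ act i v)
    (hT : ∀ i v b, T i (Function.update v i b) = T i v)
    (hsum : ∀ v, (∀ i, 0 < v i) → ∀ i j, act i v → T i v ≤ v i → act j v → T j v ≤ v j → i = j) :
    Mechanism ι where
  alloc := fun v i => if act i v ∧ T i v ≤ v i then 1 else 0
  pay := fun v i => if act i v ∧ T i v ≤ v i then T i v else 0
  alloc_nonneg := fun v _ i => by split_ifs <;> norm_num
  alloc_sum := fun v hv => by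
    rw [Finset.sum_boole]
    have : #{i | act i v ∧ T i v ≤ v i} ≤ 1 := by
      rw [Finset.card_le_one]
      intro i hi j hj
      simp only [mem_filter, mem_univ, true_and] at hi hj
      exact hsum v hv i j hi.1 hi.2 hj.1 hj.2
    exact_mod_cast this
  truthful := fun v _ i b _ => by
    simp only [hact i v b, hT i v b, Function.update_self]
    by_cases h1 : act i v
    · by_cases h2 : T i v ≤ v i
      · by_cases h3 : T i v ≤ b
        · simp [h1, h2, h3]
        · simp [h1, h2, h3]
      · by_cases h3 : T i v ≤ b
        · simp only [h1, h2, h3, and_self, if_true, if_false, and_false, mul_one, mul_zero,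
            sub_self]
          linarith
        · simp [h1, h2, h3]
    · simp [h1]
  rational := fun v _ i => by
    by_cases h1 : act i v ∧ T i v ≤ v i
    · simp only [h1, and_self, if_true, mul_one]
      linarith [h1.2]
    · simp [h1]

theorem Mechanism.mono (M : Mechanism ι) (v : ι → ℝ) (hv : ∀ i, 0 < v i) (i : ι) (b : ℝ)
    (hb : v i < b) : M.alloc v i ≤ M.alloc (Function.update v i b) i := by
  have h1 := M.truthful v hv i b ((hv i).trans hb)
  have hv' : ∀ j, 0 < Function.update v i b j := by
    intro j
    by_cases hj : j = i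
    · subst hj; simpa using (hv j).trans hb
    · simpa [hj] using hv j
  have h2 := M.truthful (Function.update v i b) hv' i (v i) (hv i)
  simp only [Function.update_idem, Function.update_eq_self, Function.update_self] at h2
  by_contra hcon
  push Not at hcon
  nlinarith

theorem revenue_le (D : ValueLaw ι) (M : Mechanism ι) :
    revenue D M ≤ ∑ v ∈ D.supp, D.prob v * ∑ i, v i := by
  unfold revenue
  refine Finset.sum_le_sum fun v hv => ?_
  refine mul_le_mul_of_nonneg_left (Finset.sum_le_sum fun i _ => ?_) (D.prob_pos v hv).le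
  have h1 := M.rational v (D.val_pos v hv) i
  have h2 : M.alloc v i ≤ 1 := by
    refine le_trans ?_ (M.alloc_sum v (D.val_pos v hv))
    exact Finset.single_le_sum (fun j _ => M.alloc_nonneg v (D.val_pos v hv) j) (mem_univ i)
  nlinarith [D.val_pos v hv i, M.alloc_nonneg v (D.val_pos v hv) i]

theorem le_OPT (D : ValueLaw ι) (M : Mechanism ι) : revenue D M ≤ OPT D := by
  refine le_csSup ⟨∑ v ∈ D.supp, D.prob v * ∑ i, v i, ?_⟩ ⟨M, rfl⟩
  rintro _ ⟨M', rfl⟩
  exact revenue_le D M'

end Threshold

/-! ## Labels -/

section Count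

theorem two_mul_card_even {K m : ℕ} (hK : 0 < K) (hm : Even m) :
    2 * #{u ∈ Fintype.piFinset (fun _ : Fin K => range m) | Even (∑ c, u c)} = m ^ K ∧
    2 * #{u ∈ Fintype.piFinset (fun _ : Fin K => range m) | ¬ Even (∑ c, u c)} = m ^ K := by
  have h1 := Finset.prod_univ_sum (fun _ : Fin K => range m) (fun _ j => (-1 : ℤ) ^ j)
  have h2 : ∑ j ∈ range m, (-1 : ℤ) ^ j = 0 := by
    rw [neg_one_geom_sum, if_pos hm]
  have h3 : ∀ u : Fin K → ℕ, ∏ c, (-1 : ℤ) ^ u c = if Even (∑ c, u c) then 1 else -1 := by
    intro u
    rw [Finset.prod_pow_eq_pow_sum]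
    split_ifs with h
    · exact h.neg_one_pow
    · exact (Nat.not_even_iff_odd.1 h).neg_one_pow
  have h4 : ∑ u ∈ Fintype.piFinset (fun _ : Fin K => range m),
      (if Even (∑ c, u c) then (1 : ℤ) else -1) = 0 := by
    rw [← Finset.sum_congr rfl (fun u _ => h3 u), ← h1]
    simp only [h2, Finset.prod_const, Finset.card_univ, Fintype.card_fin]
    exact zero_pow hK.ne'
  rw [Finset.sum_ite, Finset.sum_const, Finset.sum_const] at h4
  have h5 := Finset.card_filter_add_card_filter_not
    (s := Fintype.piFinset (fun _ : Fin K => range m)) (p := fun u => Even (∑ c, u c))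
  rw [Fintype.card_piFinset] at h5
  simp only [Finset.card_range, Finset.prod_const, Finset.card_univ, Fintype.card_fin] at h5
  simp only [nsmul_eq_mul, mul_one, mul_neg] at h4
  constructor <;> omega

end Count

end Pool.Agent.Y581.Look
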