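import Mathlib
import Pool.Agent.Y581.Look.Basic

set_option autoImplicit false

open Finset

namespace Pool.Agent.Y581.Look

/-! ## The instance

Bidder `0` has the value `2` or `N`; the bidders `1, …, K` have values close to one, which encode
labels; the last bidder has the value one. -/

section Inst

variable (K N : ℕ)

/-- The value that encodes the label `l`. -/
noncomputable def lab (l : ℕ) : ℝ := 1 + (l + 1) / (N * (2 * N + 2))

/-- The valuation vector. -/
noncomputable def prof (h : ℝ) (u : Fin K → ℕ) : Fin (K + 2) → ℝ :=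
  Fin.cons (α := fun _ => ℝ) h (Fin.snoc (α := fun _ => ℝ) (fun c => lab N (u c)) 1)

/-- The label vectors with even sum. -/
def evs : Finset (Fin K → ℕ) :=
  {u ∈ Fintype.piFinset (fun _ : Fin K => range (2 * N)) | Even (∑ c, u c)}

/-- The label vectors with odd sum. -/
def ods : Finset (Fin K → ℕ) :=
  {u ∈ Fintype.piFinset (fun _ : Fin K => range (2 * N + 2)) | ¬ Even (∑ c, u c)}

/-- The index of a label bidder. -/
def lb (c : Fin K) : Fin (K + 2) := c.castSucc.succ

variable {K N}

@[simp] theorem prof_zero (h : ℝ) (u : Fin K → ℕ) : prof K N h u 0 = h := by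
  simp [prof]

@[simp] theorem prof_lb (h : ℝ) (u : Fin K → ℕ) (c : Fin K) :
    prof K N h u (lb K c) = lab N (u c) := by
  simp [prof, lb]

@[simp] theorem prof_last (h : ℝ) (u : Fin K → ℕ) : prof K N h u (Fin.last (K + 1)) = 1 := by
  rw [← Fin.succ_last]
  simp [prof]

theorem bidder_cases (i : Fin (K + 2)) : i = 0 ∨ (∃ c, i = lb K c) ∨ i = Fin.last (K + 1) := by
  refine Fin.cases (Or.inl rfl) (fun j => ?_) i
  refine Fin.lastCases (Or.inr (Or.inr (Fin.succ_last _))) (fun c => ?_) j
  exact Or.inr (Or.inl ⟨c, rfl⟩)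

theorem lb_ne_zero (c : Fin K) : lb K c ≠ 0 := Fin.succ_ne_zero _

theorem lb_ne_last (c : Fin K) : lb K c ≠ Fin.last (K + 1) := by
  rw [← Fin.succ_last]
  intro h
  exact (Fin.castSucc_lt_last c).ne (Fin.succ_injective _ h)

theorem last_ne_zero : (Fin.last (K + 1)) ≠ 0 := by
  rw [← Fin.succ_last]; exact Fin.succ_ne_zero _

theorem lb_injective : Function.Injective (lb K) := fun a b h =>
  Fin.castSucc_injective _ (Fin.succ_injective _ h)

theorem lab_gt_one (hN : 0 < N) (l : ℕ) : 1 < lab N l := by
  have hN' : (0 : ℝ) < N := by exact_mod_cast hN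
  unfold lab
  have : (0 : ℝ) < (l + 1) / (N * (2 * N + 2)) := by positivity
  linarith

theorem lab_lt (hN : 0 < N) {l m : ℕ} (h : l < m) : lab N l < lab N m := by
  have hN' : (0 : ℝ) < N := by exact_mod_cast hN
  unfold lab
  have h' : (l : ℝ) < m := by exact_mod_cast h
  have : ((l : ℝ) + 1) / (N * (2 * N + 2)) < (m + 1) / (N * (2 * N + 2)) := by
    apply div_lt_div_of_pos_right _ (by positivity)
    linarith
  linarith

theorem lab_injective (hN : 0 < N) : Function.Injective (lab N) := by
  intro l m h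
  rcases lt_trichotomy l m with h1 | h1 | h1
  · exact absurd h (lab_lt hN h1).ne
  · exact h1
  · exact absurd h (lab_lt hN h1).ne'

theorem lab_le (hN : 0 < N) {l : ℕ} (h : l < 2 * N + 2) : lab N l ≤ 1 + 1 / N := by
  have hN' : (0 : ℝ) < N := by exact_mod_cast hN
  unfold lab
  have h' : (l : ℝ) + 1 ≤ 2 * N + 2 := by
    have : l + 1 ≤ 2 * N + 2 := h
    exact_mod_cast this
  have : ((l : ℝ) + 1) / (N * (2 * N + 2)) ≤ 1 / N := by
    rw [div_le_div_iff₀ (by positivity) hN']
    nlinarith
  linarith

theorem prof_injective (hN : 0 < N) {h h' : ℝ} {u u' : Fin K → ℕ}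
    (e : prof K N h u = prof K N h' u') : h = h' ∧ u = u' := by
  refine ⟨by simpa using congrFun e 0, ?_⟩
  funext c
  have := congrFun e (lb K c)
  simp only [prof_lb] at this
  exact lab_injective hN this

theorem prof_pos (hN : 0 < N) {h : ℝ} (hh : 0 < h) (u : Fin K → ℕ) (i : Fin (K + 2)) :
    0 < prof K N h u i := by
  rcases bidder_cases i with rfl | ⟨c, rfl⟩ | rfl
  · simpa using hh
  · simpa using one_pos.trans (lab_gt_one hN _)
  · simp

theorem mem_evs {u : Fin K → ℕ} : u ∈ evs K N ↔ (∀ c, u c < 2 * N) ∧ Even (∑ c, u c) := by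
  simp [evs]

theorem mem_ods {u : Fin K → ℕ} : u ∈ ods K N ↔ (∀ c, u c < 2 * N + 2) ∧ ¬ Even (∑ c, u c) := by
  simp [ods]

theorem evs_nonempty (hN : 0 < N) : (evs K N).Nonempty :=
  ⟨fun _ => 0, by rw [mem_evs]; exact ⟨fun _ => by omega, by simp⟩⟩

/-- Raising the label of bidder `c` by one. -/
def up (c : Fin K) (u : Fin K → ℕ) : Fin K → ℕ := Function.update u c (u c + 1)

theorem up_injective (c : Fin K) : Function.Injective (up c) := by
  intro u u' h
  funext d
  have := congrFun h d
  by_cases hd : d = c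
  · subst hd
    simpa [up] using this
  · simpa [up, hd] using this

theorem sum_up (c : Fin K) (u : Fin K → ℕ) : ∑ d, up c u d = ∑ d, u d + 1 := by
  unfold up
  rw [Finset.sum_update_of_mem (mem_univ c)]
  rw [← Finset.add_sum_erase univ u (mem_univ c)]
  rw [Finset.sdiff_singleton_eq_erase]
  omega

theorem up_mem {c : Fin K} {u : Fin K → ℕ} (hu : u ∈ evs K N) : up c u ∈ ods K N := by
  rw [mem_evs] at hu
  rw [mem_ods]
  refine ⟨fun d => ?_, ?_⟩
  · have := hu.1 d
    by_cases hd : d = c
    · subst hd; simp [up]; omega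
    · simp [up, hd]; omega
  · rw [sum_up, Nat.even_add_one, not_not]
    exact hu.2

theorem update_zero (h b : ℝ) (u : Fin K → ℕ) :
    Function.update (prof K N h u) 0 b = prof K N b u := by
  funext i
  rcases bidder_cases i with rfl | ⟨c, rfl⟩ | rfl
  · simp
  · rw [Function.update_of_ne (lb_ne_zero c)]; simp
  · rw [Function.update_of_ne last_ne_zero]; simp

theorem update_lb (h : ℝ) (u : Fin K → ℕ) (c : Fin K) :
    Function.update (prof K N h u) (lb K c) (lab N (u c + 1)) = prof K N h (up c u) := by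
  funext i
  rcases bidder_cases i with rfl | ⟨d, rfl⟩ | rfl
  · rw [Function.update_of_ne (lb_ne_zero c).symm]; simp
  · by_cases hd : d = c
    · subst hd; simp [up]
    · rw [Function.update_of_ne (fun e => hd (lb_injective e))]
      simp [up, hd]
  · rw [Function.update_of_ne (lb_ne_last c).symm]; simp

end Inst

end Pool.Agent.Y581.Look
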