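import Mathlib
import Pool.Agent.Y581.Look.Inst

set_option autoImplicit false

open Finset

namespace Pool.Agent.Y581.Look

section Upper

variable {K N : ℕ}

/-- The set of the first `K + 1` bidders. -/
def k0 (K : ℕ) : Finset (Fin (K + 2)) := univ.erase (Fin.last (K + 1))

theorem restr_update {n : ℕ} {S : Finset (Fin n)} (w : Fin n → ℝ) (i : S) (b : ℝ) :
    Function.update (fun j : S => w j) i b = fun j : S => Function.update w i b j := by
  funext j
  by_cases h : j = i
  · subst h; simp
  · rw [Function.update_of_ne h, Function.update_of_ne (fun e => h (Subtype.ext e))]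

/-- the probability weights of the instance, up to normalisation -/
noncomputable def mu (N : ℕ) : ℝ := (N + 1) / (N - 1)

/-- the probability weights of the instance, up to normalisation -/
noncomputable def mu' (N : ℕ) : ℝ := 2 / (N - 2)

theorem mu_eq (hN : 2 < N) : (1 + 1 / (N : ℝ)) * (1 + mu N) = mu N * 2 := by
  have h : (2 : ℝ) < N := by exact_mod_cast hN
  have h1 : (N : ℝ) - 1 ≠ 0 := by linarith
  have h2 : (N : ℝ) ≠ 0 := by linarith
  unfold mu
  field_simp
  ring

theorem mu'_eq (hN : 2 < N) : (1 + mu' N) * 2 = mu' N * N := by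
  have h : (2 : ℝ) < N := by exact_mod_cast hN
  have h1 : (N : ℝ) - 2 ≠ 0 := by linarith
  unfold mu'
  field_simp
  ring

theorem mu_pos (hN : 2 < N) : 0 < mu N := by
  have h : (2 : ℝ) < N := by exact_mod_cast hN
  unfold mu
  apply div_pos <;> linarith

theorem mu'_pos (hN : 2 < N) : 0 < mu' N := by
  have h : (2 : ℝ) < N := by exact_mod_cast hN
  unfold mu'
  apply div_pos <;> linarith

variable (M : Mechanism (k0 K))

/-- allocation at a profile of the instance -/
noncomputable def X (N : ℕ) (h : ℝ) (u : Fin K → ℕ) (i : k0 K) : ℝ := M.alloc (fun j => prof K N h u j) i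

/-- payment at a profile of the instance -/
noncomputable def P (N : ℕ) (h : ℝ) (u : Fin K → ℕ) (i : k0 K) : ℝ := M.pay (fun j => prof K N h u j) i

variable {M}

theorem X_nonneg (hN : 0 < N) {h : ℝ} (hh : 0 < h) (u : Fin K → ℕ) (i : k0 K) :
    0 ≤ X M N h u i :=
  M.alloc_nonneg _ (fun j => prof_pos hN hh u j) i

theorem X_sum (hN : 0 < N) {h : ℝ} (hh : 0 < h) (u : Fin K → ℕ) : ∑ i, X M N h u i ≤ 1 :=
  M.alloc_sum _ (fun j => prof_pos hN hh u j)

theorem P_le (hN : 0 < N) {h : ℝ} (hh : 0 < h) (u : Fin K → ℕ) (i : k0 K) :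
    P M N h u i ≤ prof K N h u i * X M N h u i := by
  have := M.rational _ (fun j => prof_pos hN hh u j) i
  unfold P X
  linarith

theorem big (hN : 0 < N) {h h' : ℝ} (hh : 0 < h) (hh' : 0 < h') (u : Fin K → ℕ)
    (i : k0 K) (hi : i.1 = 0) :
    P M N h' u i ≤ P M N h u i + h' * (X M N h' u i - X M N h u i) := by
  have h1 := M.truthful (fun j => prof K N h' u j) (fun j => prof_pos hN hh' u j) i h hh
  rw [restr_update] at h1
  have h2 : Function.update (prof K N h' u) i h = prof K N h u := by
    rw [hi]; exact update_zero h' h u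
  rw [h2, hi, prof_zero] at h1
  unfold P X
  linarith

theorem mono_lb (hN : 0 < N) {h : ℝ} (hh : 0 < h) (u : Fin K → ℕ) (i : k0 K) (c : Fin K)
    (hi : i.1 = lb K c) : X M N h u i ≤ X M N h (up c u) i := by
  have h1 := M.mono (fun j => prof K N h u j) (fun j => prof_pos hN hh u j) i
    (lab N (u c + 1)) (by rw [hi, prof_lb]; exact lab_lt hN (Nat.lt_succ_self _))
  rw [restr_update] at h1
  have h2 : Function.update (prof K N h u) i (lab N (u c + 1)) = prof K N h (up c u) := by
    rw [hi]; exact update_lb h u c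
  rw [h2] at h1
  exact h1

/-- The revenue from one bidder. -/
theorem per_bidder (hN : 2 < N) (i : k0 K) :
    ∑ u ∈ evs K N, P M N 2 u i + mu N * ∑ u ∈ ods K N, P M N 2 u i +
      mu' N * ∑ u ∈ evs K N, P M N N u i ≤
    mu N * 2 * ∑ u ∈ ods K N, X M N 2 u i + mu' N * N * ∑ u ∈ evs K N, X M N N u i := by
  have hN0 : 0 < N := by omega
  have hNR : (2 : ℝ) < N := by exact_mod_cast hN
  have hNp : (0 : ℝ) < N := by linarith
  have m1 := mu_pos hN
  have m2 := mu'_pos hN
  rcases bidder_cases i.1 with hi | ⟨c, hi⟩ | hi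
  · -- the first bidder
    have h1 : ∑ u ∈ evs K N, P M N 2 u i + mu' N * ∑ u ∈ evs K N, P M N N u i ≤
        mu' N * N * ∑ u ∈ evs K N, X M N N u i := by
      rw [Finset.mul_sum, Finset.mul_sum, ← Finset.sum_add_distrib]
      refine Finset.sum_le_sum fun u _ => ?_
      have h2 := P_le (M := M) hN0 (two_pos) u i
      rw [hi, prof_zero] at h2
      have h3 := big (M := M) hN0 (two_pos) hNp u i hi
      have h4 := mu'_eq hN
      calc P M N 2 u i + mu' N * P M N N u i
          ≤ P M N 2 u i + mu' N * (P M N 2 u i + N * (X M N N u i - X M N 2 u i)) := by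
            have := mul_le_mul_of_nonneg_left h3 m2.le
            linarith
        _ = (1 + mu' N) * P M N 2 u i + mu' N * N * (X M N N u i - X M N 2 u i) := by ring
        _ ≤ (1 + mu' N) * (2 * X M N 2 u i) + mu' N * N * (X M N N u i - X M N 2 u i) := by
            have := mul_le_mul_of_nonneg_left h2 (by linarith : 0 ≤ 1 + mu' N)
            linarith
        _ = mu' N * N * X M N N u i := by
            rw [← h4]; ring
    have h2 : mu N * ∑ u ∈ ods K N, P M N 2 u i ≤ mu N * 2 * ∑ u ∈ ods K N, X M N 2 u i := by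
      rw [Finset.mul_sum, Finset.mul_sum]
      refine Finset.sum_le_sum fun u _ => ?_
      have h2 := P_le (M := M) hN0 (two_pos) u i
      rw [hi, prof_zero] at h2
      have := mul_le_mul_of_nonneg_left h2 m1.le
      linarith
    linarith
  · -- a label bidder
    have hlab : ∀ l, l < 2 * N + 2 → lab N l ≤ 1 + 1 / N := fun l hl => lab_le hN0 hl
    have hX : ∀ h : ℝ, 0 < h → ∀ u, 0 ≤ X M N h u i := fun h hh u => X_nonneg hN0 hh u i
    have ha : 0 ≤ 1 + 1 / (N : ℝ) := by positivity
    have h1 : ∑ u ∈ evs K N, P M N 2 u i ≤ (1 + 1 / N) * ∑ u ∈ ods K N, X M N 2 u i := by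
      calc ∑ u ∈ evs K N, P M N 2 u i ≤ ∑ u ∈ evs K N, (1 + 1 / N) * X M N 2 (up c u) i := by
            refine Finset.sum_le_sum fun u hu => ?_
            have h2 := P_le (M := M) hN0 (two_pos) u i
            rw [hi, prof_lb] at h2
            have h3 := hlab (u c) (by have := (mem_evs.1 hu).1 c; omega)
            have h4 := mono_lb (M := M) hN0 (two_pos) u i c hi
            calc P M N 2 u i ≤ lab N (u c) * X M N 2 u i := h2
              _ ≤ (1 + 1 / N) * X M N 2 u i :=
                mul_le_mul_of_nonneg_right h3 (hX 2 two_pos u)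
              _ ≤ _ := mul_le_mul_of_nonneg_left h4 ha
        _ = (1 + 1 / N) * ∑ u ∈ (evs K N).image (up c), X M N 2 u i := by
            rw [Finset.sum_image (fun a _ b _ h => up_injective c h), Finset.mul_sum]
        _ ≤ (1 + 1 / N) * ∑ u ∈ ods K N, X M N 2 u i := by
            refine mul_le_mul_of_nonneg_left ?_ ha
            refine Finset.sum_le_sum_of_subset_of_nonneg ?_ (fun u _ _ => hX 2 two_pos u)
            intro w hw
            obtain ⟨u, hu, rfl⟩ := Finset.mem_image.1 hw
            exact up_mem hu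
    have h2 : ∑ u ∈ ods K N, P M N 2 u i ≤ (1 + 1 / N) * ∑ u ∈ ods K N, X M N 2 u i := by
      rw [Finset.mul_sum]
      refine Finset.sum_le_sum fun u hu => ?_
      have h2 := P_le (M := M) hN0 (two_pos) u i
      rw [hi, prof_lb] at h2
      have h3 := hlab (u c) ((mem_ods.1 hu).1 c)
      exact h2.trans (mul_le_mul_of_nonneg_right h3 (hX 2 two_pos u))
    have h3 : ∑ u ∈ evs K N, P M N N u i ≤ N * ∑ u ∈ evs K N, X M N N u i := by
      rw [Finset.mul_sum]
      refine Finset.sum_le_sum fun u hu => ?_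
      have h2 := P_le (M := M) hN0 hNp u i
      rw [hi, prof_lb] at h2
      have h3 := hlab (u c) (by have := (mem_evs.1 hu).1 c; omega)
      have h4 : (1 : ℝ) + 1 / N ≤ N := by
        have : (1 : ℝ) / N ≤ 1 := by rw [div_le_one hNp]; linarith
        linarith
      exact h2.trans (mul_le_mul_of_nonneg_right (h3.trans h4) (hX N hNp u))
    have h4 := mu_eq hN
    have h5 := mul_le_mul_of_nonneg_left h2 m1.le
    have h6 := mul_le_mul_of_nonneg_left h3 m2.le
    have h7 : (1 + 1 / (N : ℝ)) * ∑ u ∈ ods K N, X M N 2 u i +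
        mu N * ((1 + 1 / N) * ∑ u ∈ ods K N, X M N 2 u i) =
        mu N * 2 * ∑ u ∈ ods K N, X M N 2 u i := by
      rw [← h4]; ring
    linarith
  · exfalso
    have := i.2
    rw [hi] at this
    simp [k0] at this

/-- The total revenue. -/
theorem total (hN : 2 < N) (M : Mechanism (k0 K)) :
    ∑ u ∈ evs K N, ∑ i, P M N 2 u i + mu N * ∑ u ∈ ods K N, ∑ i, P M N 2 u i +
      mu' N * ∑ u ∈ evs K N, ∑ i, P M N N u i ≤
    mu N * 2 * #(ods K N) + mu' N * N * #(evs K N) := by
  have hN0 : 0 < N := by omega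
  have hNR : (2 : ℝ) < N := by exact_mod_cast hN
  have hNp : (0 : ℝ) < N := by linarith
  have m1 := mu_pos hN
  have m2 := mu'_pos hN
  have h := Finset.sum_le_sum fun (i : k0 K) (_ : i ∈ univ) => per_bidder (M := M) hN i
  simp only [Finset.sum_add_distrib, ← Finset.mul_sum] at h
  rw [Finset.sum_comm (s := univ) (t := evs K N), Finset.sum_comm (s := univ) (t := ods K N),
    Finset.sum_comm (s := univ) (t := evs K N), Finset.sum_comm (s := univ) (t := ods K N),
    Finset.sum_comm (s := univ) (t := evs K N)] at h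
  have h1 : ∑ u ∈ ods K N, ∑ i, X M N 2 u i ≤ #(ods K N) := by
    rw [Finset.card_eq_sum_ones]
    push_cast
    exact Finset.sum_le_sum fun u _ => X_sum hN0 two_pos u
  have h2 : ∑ u ∈ evs K N, ∑ i, X M N N u i ≤ #(evs K N) := by
    rw [Finset.card_eq_sum_ones]
    push_cast
    exact Finset.sum_le_sum fun u _ => X_sum hN0 hNp u
  have h3 := mul_le_mul_of_nonneg_left h1 (by positivity : 0 ≤ mu N * 2)
  have h4 := mul_le_mul_of_nonneg_left h2 (by positivity : 0 ≤ mu' N * N)
  linarith

end Upper

end Pool.Agent.Y581.Look
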