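import Mathlib
import Pool.Agent.Y581.Look.Upper

set_option autoImplicit false

open Finset

namespace Pool.Agent.Y581.Look

section Main

variable {K N : ℕ}

open Classical in
/-- the weight of a valuation vector, before normalisation -/
noncomputable def raw (K N : ℕ) (v : Fin (K + 2) → ℝ) : ℝ :=
  if v ∈ (evs K N).image (prof K N 2) then 1
  else if v ∈ (ods K N).image (prof K N 2) then mu N else mu' N

/-- the normalising constant -/
noncomputable def Z (K N : ℕ) : ℝ := #(evs K N) + mu N * #(ods K N) + mu' N * #(evs K N)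

open Classical in
/-- the support -/
noncomputable def sup (K N : ℕ) : Finset (Fin (K + 2) → ℝ) :=
  ((evs K N).image (prof K N 2) ∪ (ods K N).image (prof K N 2)) ∪ (evs K N).image (prof K N N)

theorem Z_pos (hN : 2 < N) : 0 < Z K N := by
  have h1 : 0 < #(evs K N) := (evs_nonempty (by omega)).card_pos
  have h2 : (0 : ℝ) < #(evs K N) := by exact_mod_cast h1
  have m1 := mu_pos hN
  have m2 := mu'_pos hN
  unfold Z
  positivity

theorem sum_raw (hN : 2 < N) (g : (Fin (K + 2) → ℝ) → ℝ) :
    ∑ v ∈ sup K N, raw K N v * g v =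
      ∑ u ∈ evs K N, g (prof K N 2 u) + mu N * ∑ u ∈ ods K N, g (prof K N 2 u) +
        mu' N * ∑ u ∈ evs K N, g (prof K N N u) := by
  classical
  have hN0 : 0 < N := by omega
  have hNR : (2 : ℝ) < N := by exact_mod_cast hN
  have hinj : ∀ (h : ℝ) (s : Finset (Fin K → ℕ)), Set.InjOn (prof K N h) s :=
    fun h s a _ b _ e => (prof_injective hN0 e).2
  have d1 : Disjoint ((evs K N).image (prof K N 2)) ((ods K N).image (prof K N 2)) := by
    rw [Finset.disjoint_left]
    intro v h1 h2
    obtain ⟨u, hu, rfl⟩ := Finset.mem_image.1 h1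
    obtain ⟨u', hu', e⟩ := Finset.mem_image.1 h2
    have := (prof_injective hN0 e).2
    subst this
    exact (mem_ods.1 hu').2 (mem_evs.1 hu).2
  have hne : ∀ u u' : Fin K → ℕ, prof K N 2 u ≠ prof K N N u' := by
    intro u u' e
    have := (prof_injective hN0 e).1
    linarith
  have d2 : Disjoint ((evs K N).image (prof K N 2) ∪ (ods K N).image (prof K N 2))
      ((evs K N).image (prof K N N)) := by
    rw [Finset.disjoint_left]
    intro v h1 h2
    obtain ⟨u', hu', rfl⟩ := Finset.mem_image.1 h2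
    rcases Finset.mem_union.1 h1 with h | h
    · obtain ⟨u, hu, e⟩ := Finset.mem_image.1 h
      exact hne _ _ e
    · obtain ⟨u, hu, e⟩ := Finset.mem_image.1 h
      exact hne _ _ e
  unfold sup
  rw [Finset.sum_union d2, Finset.sum_union d1, Finset.sum_image (hinj 2 _),
    Finset.sum_image (hinj 2 _), Finset.sum_image (hinj N _), Finset.mul_sum, Finset.mul_sum]
  congr 1
  · congr 1
    · refine Finset.sum_congr rfl fun u hu => ?_
      have : raw K N (prof K N 2 u) = 1 := by
        unfold raw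
        rw [if_pos (Finset.mem_image_of_mem _ hu)]
      rw [this, one_mul]
    · refine Finset.sum_congr rfl fun u hu => ?_
      have : raw K N (prof K N 2 u) = mu N := by
        unfold raw
        rw [if_neg (Finset.disjoint_right.1 d1 (Finset.mem_image_of_mem _ hu)),
          if_pos (Finset.mem_image_of_mem _ hu)]
      rw [this]
  · refine Finset.sum_congr rfl fun u hu => ?_
    have : raw K N (prof K N N u) = mu' N := by
      unfold raw
      rw [if_neg, if_neg]
      · intro h
        obtain ⟨u', _, e⟩ := Finset.mem_image.1 h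
        exact hne _ _ e
      · intro h
        obtain ⟨u', _, e⟩ := Finset.mem_image.1 h
        exact hne _ _ e
    rw [this]

theorem mem_sup {v : Fin (K + 2) → ℝ} (hv : v ∈ sup K N) :
    ∃ u, (u ∈ evs K N ∧ v = prof K N 2 u) ∨ (u ∈ ods K N ∧ v = prof K N 2 u) ∨
      (u ∈ evs K N ∧ v = prof K N N u) := by
  unfold sup at hv
  rcases Finset.mem_union.1 hv with h | h
  · rcases Finset.mem_union.1 h with h | h
    · obtain ⟨u, hu, e⟩ := Finset.mem_image.1 h
      exact ⟨u, Or.inl ⟨hu, e.symm⟩⟩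
    · obtain ⟨u, hu, e⟩ := Finset.mem_image.1 h
      exact ⟨u, Or.inr (Or.inl ⟨hu, e.symm⟩)⟩
  · obtain ⟨u, hu, e⟩ := Finset.mem_image.1 h
    exact ⟨u, Or.inr (Or.inr ⟨hu, e.symm⟩)⟩

theorem mem_sup' (hN : 2 < N) {v : Fin (K + 2) → ℝ} (hv : v ∈ sup K N) :
    ∃ (u : Fin K → ℕ) (h : ℝ), 1 < h ∧ v = prof K N h u := by
  have hNR : (2 : ℝ) < N := by exact_mod_cast hN
  obtain ⟨u, ⟨-, h⟩ | ⟨-, h⟩ | ⟨-, h⟩⟩ := mem_sup hv
  · exact ⟨u, 2, by norm_num, h⟩
  · exact ⟨u, 2, by norm_num, h⟩
  · exact ⟨u, N, by linarith, h⟩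

/-- The distribution. -/
noncomputable def DD (K N : ℕ) (hN : 2 < N) : ValueLaw (Fin (K + 2)) where
  supp := sup K N
  prob := fun v => raw K N v / Z K N
  prob_pos := fun v _ => by
    refine div_pos ?_ (Z_pos hN)
    unfold raw
    split_ifs
    · norm_num
    · exact mu_pos hN
    · exact mu'_pos hN
  prob_sum := by
    have h := sum_raw (K := K) hN (fun _ => 1)
    simp only [mul_one, Finset.sum_const, nsmul_eq_mul] at h
    rw [← Finset.sum_div, h]
    exact div_self (Z_pos hN).ne'
  val_pos := fun v hv i => by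
    obtain ⟨u, h, h1, rfl⟩ := mem_sup' hN hv
    exact prof_pos (by omega) (by linarith) u i

theorem sum_prob (hN : 2 < N) (g : (Fin (K + 2) → ℝ) → ℝ) :
    ∑ v ∈ (DD K N hN).supp, (DD K N hN).prob v * g v =
      (∑ u ∈ evs K N, g (prof K N 2 u) + mu N * ∑ u ∈ ods K N, g (prof K N 2 u) +
        mu' N * ∑ u ∈ evs K N, g (prof K N N u)) / Z K N := by
  rw [← sum_raw hN g, Finset.sum_div]
  refine Finset.sum_congr rfl fun v _ => ?_
  show raw K N v / Z K N * g v = _
  ring

theorem one_lt_prof (hN : 0 < N) {h : ℝ} (hh : 1 < h) (u : Fin K → ℕ) {i : Fin (K + 2)}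
    (hi : i ≠ Fin.last (K + 1)) : 1 < prof K N h u i := by
  rcases bidder_cases i with rfl | ⟨c, rfl⟩ | rfl
  · simpa using hh
  · simpa using lab_gt_one hN _
  · exact absurd rfl hi

theorem mem_k0 {i : Fin (K + 2)} : i ∈ k0 K ↔ i ≠ Fin.last (K + 1) := by simp [k0]

theorem top_prof (hN : 0 < N) {h : ℝ} (hh : 1 < h) (u : Fin K → ℕ) :
    top (K + 1) (prof K N h u) = k0 K := by
  ext i
  rw [mem_k0]
  unfold top
  simp only [mem_filter, mem_univ, true_and]
  constructor
  · rintro h1 rfl
    have h2 : k0 K ⊆ ({j | prof K N h u (Fin.last (K + 1)) < prof K N h u j ∨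
        (prof K N h u j = prof K N h u (Fin.last (K + 1)) ∧ j < Fin.last (K + 1))} :
          Finset (Fin (K + 2))) := by
      intro j hj
      simp only [mem_filter, mem_univ, true_and]
      left
      rw [prof_last]
      exact one_lt_prof hN hh u (mem_k0.1 hj)
    have h3 := Finset.card_le_card h2
    have h4 : #(k0 K) = K + 1 := by simp [k0]
    omega
  · intro hi
    have h2 : ({j | prof K N h u i < prof K N h u j ∨
        (prof K N h u j = prof K N h u i ∧ j < i)} : Finset (Fin (K + 2))) ⊆ (k0 K).erase i := by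
      intro j hj
      simp only [mem_filter, mem_univ, true_and] at hj
      rw [Finset.mem_erase, mem_k0]
      have h3 := one_lt_prof (N := N) hN hh u hi
      constructor
      · rintro rfl
        rcases hj with hj | hj
        · exact absurd hj (lt_irrefl _)
        · exact absurd hj.2 (lt_irrefl _)
      · rintro rfl
        rw [prof_last] at hj
        rcases hj with hj | hj
        · linarith
        · linarith [hj.1]
    have h3 := Finset.card_le_card h2
    rw [Finset.card_erase_of_mem (mem_k0.2 hi)] at h3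
    have h4 : #(k0 K) = K + 1 := by simp [k0]
    omega

theorem top_supp (hN : 2 < N) {v : Fin (K + 2) → ℝ} (hv : v ∈ (DD K N hN).supp) :
    top (K + 1) v = k0 K := by
  obtain ⟨u, h, hh, rfl⟩ := mem_sup' hN hv
  exact top_prof (by omega) hh u

theorem consistent_supp (hN : 2 < N) {v : Fin (K + 2) → ℝ} (hv : v ∈ (DD K N hN).supp) :
    consistent (DD K N hN) (k0 K) v = (DD K N hN).supp := by
  unfold consistent
  rw [Finset.filter_eq_self]
  intro w hw
  obtain ⟨u, h, hh, rfl⟩ := mem_sup' hN hv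
  obtain ⟨u', h', hh', rfl⟩ := mem_sup' hN hw
  constructor
  · intro j hj
    rw [mem_k0, not_not] at hj
    subst hj
    simp
  · intro i hi j hj
    rw [mem_k0, not_not] at hj
    subst hj
    rw [prof_last]
    exact (one_lt_prof (by omega) hh' u' (mem_k0.1 hi)).le

theorem condRevenue_supp (hN : 2 < N) {v : Fin (K + 2) → ℝ} (hv : v ∈ (DD K N hN).supp)
    (M : Mechanism (k0 K)) :
    condRevenue (DD K N hN) (k0 K) v M =
      (∑ u ∈ evs K N, ∑ i, P M N 2 u i + mu N * ∑ u ∈ ods K N, ∑ i, P M N 2 u i +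
        mu' N * ∑ u ∈ evs K N, ∑ i, P M N N u i) / Z K N := by
  unfold condRevenue
  rw [consistent_supp hN hv, (DD K N hN).prob_sum, div_one,
    sum_prob (K := K) hN (fun w => ∑ i, M.pay (fun j : k0 K => w j) i)]
  rfl

/-- The value of the lookahead mechanism. -/
noncomputable def RR (K N : ℕ) : ℝ := mu N * 2 * #(ods K N) + mu' N * N * #(evs K N)

theorem condRevenue_le (hN : 2 < N) {v : Fin (K + 2) → ℝ} (hv : v ∈ (DD K N hN).supp)
    (M : Mechanism (k0 K)) : condRevenue (DD K N hN) (k0 K) v M ≤ RR K N / Z K N := by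
  rw [condRevenue_supp hN hv]
  exact div_le_div_of_nonneg_right (total hN M) (Z_pos hN).le

open Classical in
/-- the price for the first bidder -/
noncomputable def pr (K N : ℕ) (y : Fin K → ℝ) : ℝ :=
  if ∃ u ∈ ods K N, ∀ c, y c = lab N (u c) then 2 else N

theorem pr_ods {u : Fin K → ℕ} (hu : u ∈ ods K N) : pr K N (fun c => lab N (u c)) = 2 := by
  unfold pr
  rw [if_pos ⟨u, hu, fun _ => rfl⟩]

theorem pr_evs (hN : 0 < N) {u : Fin K → ℕ} (hu : u ∈ evs K N) :
    pr K N (fun c => lab N (u c)) = N := by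
  unfold pr
  rw [if_neg]
  rintro ⟨u', hu', h⟩
  have : u = u' := by
    funext c
    exact lab_injective hN (h c)
  subst this
  exact (mem_ods.1 hu').2 (mem_evs.1 hu).2

/-- The optimal mechanism for the first `K + 1` bidders. -/
noncomputable def M0 (K N : ℕ) : Mechanism (k0 K) :=
  Mechanism.threshold (fun i _ => i.1 = 0)
    (fun i v => if i.1 = 0 then pr K N (fun c => v ⟨lb K c, mem_k0.2 (lb_ne_last c)⟩) else 1)
    (fun _ _ _ => Iff.rfl)
    (fun i v b => by
      by_cases hi : i.1 = 0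
      · simp only [hi, if_true]
        congr 1
        funext c
        rw [Function.update_of_ne]
        intro e
        have := congrArg Subtype.val e
        simp only [hi] at this
        exact lb_ne_zero c this
      · simp [hi])
    (fun v _ i j hi _ hj _ => Subtype.ext (hi.trans hj.symm))

theorem M0_sum (h : ℝ) (u : Fin K → ℕ) :
    ∑ i, P (M0 K N) N h u i =
      if pr K N (fun c => lab N (u c)) ≤ h then pr K N (fun c => lab N (u c)) else 0 := by
  have h0 : (0 : Fin (K + 2)) ∈ k0 K := mem_k0.2 last_ne_zero.symm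
  rw [Finset.sum_eq_single (⟨0, h0⟩ : k0 K)]
  · simp [P, M0, Mechanism.threshold]
  · intro i _ hi
    have : i.1 ≠ 0 := fun e => hi (Subtype.ext e)
    simp [P, M0, Mechanism.threshold, this]
  · intro h
    exact absurd (mem_univ _) h

theorem M0_revenue (hN : 2 < N) {v : Fin (K + 2) → ℝ} (hv : v ∈ (DD K N hN).supp) :
    condRevenue (DD K N hN) (k0 K) v (M0 K N) = RR K N / Z K N := by
  have hNR : (2 : ℝ) < N := by exact_mod_cast hN
  rw [condRevenue_supp hN hv]
  simp only [M0_sum]
  have h1 : ∑ u ∈ evs K N, (if pr K N (fun c => lab N (u c)) ≤ 2 then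
      pr K N (fun c => lab N (u c)) else 0) = 0 := by
    refine Finset.sum_eq_zero fun u hu => ?_
    rw [pr_evs (by omega) hu, if_neg (by linarith)]
  have h2 : ∑ u ∈ ods K N, (if pr K N (fun c => lab N (u c)) ≤ 2 then
      pr K N (fun c => lab N (u c)) else 0) = 2 * #(ods K N) := by
    rw [Finset.sum_congr rfl fun u hu => by rw [pr_ods hu, if_pos (le_refl _)]]
    rw [Finset.sum_const, nsmul_eq_mul]; ring
  have h3 : ∑ u ∈ evs K N, (if pr K N (fun c => lab N (u c)) ≤ N then
      pr K N (fun c => lab N (u c)) else 0) = N * #(evs K N) := by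
    rw [Finset.sum_congr rfl fun u hu => by rw [pr_evs (by omega) hu, if_pos (le_refl _)]]
    rw [Finset.sum_const, nsmul_eq_mul]; ring
  rw [h1, h2, h3]
  unfold RR
  congr 1
  ring

/-- The mechanism for all the bidders. -/
noncomputable def M1 (K N : ℕ) : Mechanism (Fin (K + 2)) :=
  Mechanism.threshold
    (fun i v => i = 0 ∨ (i = Fin.last (K + 1) ∧ v 0 < pr K N (fun c => v (lb K c))))
    (fun i v => if i = 0 then pr K N (fun c => v (lb K c)) else 1)
    (fun i v b => by
      rcases bidder_cases i with rfl | ⟨c, rfl⟩ | rfl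
      · simp
      · simp [lb_ne_zero, lb_ne_last]
      · simp only [last_ne_zero, false_or, true_and]
        rw [Function.update_of_ne last_ne_zero.symm]
        have : (fun c => Function.update v (Fin.last (K + 1)) b (lb K c)) =
            fun c => v (lb K c) := by
          funext c
          rw [Function.update_of_ne (lb_ne_last c)]
        rw [this])
    (fun i v b => by
      by_cases hi : i = 0
      · subst hi
        simp only [if_true]
        have : (fun c => Function.update v 0 b (lb K c)) = fun c => v (lb K c) := by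
          funext c
          rw [Function.update_of_ne (lb_ne_zero c)]
        rw [this]
      · simp [hi])
    (fun v _ i j hi hi' hj hj' => by
      rcases hi with rfl | ⟨rfl, hi⟩
      · rcases hj with rfl | ⟨rfl, hj⟩
        · rfl
        · simp only [if_true] at hi'
          linarith
      · rcases hj with rfl | ⟨rfl, hj⟩
        · simp only [if_true] at hj'
          linarith
        · rfl)

theorem M1_sum (h : ℝ) (u : Fin K → ℕ) :
    ∑ i, (M1 K N).pay (prof K N h u) i =
      if pr K N (fun c => lab N (u c)) ≤ h then pr K N (fun c => lab N (u c)) else 1 := by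
  by_cases hp : pr K N (fun c => lab N (u c)) ≤ h
  · rw [Finset.sum_eq_single (0 : Fin (K + 2))]
    · simp [M1, Mechanism.threshold, hp]
    · intro i _ hi
      simp [M1, Mechanism.threshold, hi, not_lt.2 hp]
    · intro h
      exact absurd (mem_univ _) h
  · rw [Finset.sum_eq_single (Fin.last (K + 1))]
    · simp [M1, Mechanism.threshold, hp, last_ne_zero, not_le.1 hp]
    · intro i _ hi
      simp [M1, Mechanism.threshold, hi, hp]
      intro h0
      subst h0
      simp [hp]
    · intro h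
      exact absurd (mem_univ _) h

theorem M1_revenue (hN : 2 < N) :
    revenue (DD K N hN) (M1 K N) = (RR K N + #(evs K N)) / Z K N := by
  have hNR : (2 : ℝ) < N := by exact_mod_cast hN
  unfold revenue
  rw [sum_prob hN (fun v => ∑ i, (M1 K N).pay v i)]
  simp only [M1_sum]
  have h1 : ∑ u ∈ evs K N, (if pr K N (fun c => lab N (u c)) ≤ 2 then
      pr K N (fun c => lab N (u c)) else 1) = #(evs K N) := by
    rw [Finset.sum_congr rfl fun u hu => by rw [pr_evs (by omega) hu, if_neg (by linarith)]]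
    simp
  have h2 : ∑ u ∈ ods K N, (if pr K N (fun c => lab N (u c)) ≤ 2 then
      pr K N (fun c => lab N (u c)) else 1) = 2 * #(ods K N) := by
    rw [Finset.sum_congr rfl fun u hu => by rw [pr_ods hu, if_pos (le_refl _)]]
    rw [Finset.sum_const, nsmul_eq_mul]; ring
  have h3 : ∑ u ∈ evs K N, (if pr K N (fun c => lab N (u c)) ≤ N then
      pr K N (fun c => lab N (u c)) else 1) = N * #(evs K N) := by
    rw [Finset.sum_congr rfl fun u hu => by rw [pr_evs (by omega) hu, if_pos (le_refl _)]]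
    rw [Finset.sum_const, nsmul_eq_mul]; ring
  rw [h1, h2, h3]
  unfold RR
  congr 1
  ring

theorem RR_pos (hN : 2 < N) : 0 < RR K N := by
  have h1 : 0 < #(evs K N) := (evs_nonempty (by omega)).card_pos
  have h2 : (0 : ℝ) < #(evs K N) := by exact_mod_cast h1
  have h3 : (0 : ℝ) < N := by exact_mod_cast (by omega : 0 < N)
  have m1 := mu_pos hN
  have m2 := mu'_pos hN
  unfold RR
  positivity

theorem OPT_ge (hN : 2 < N) : (RR K N + #(evs K N)) / Z K N ≤ OPT (DD K N hN) := by
  rw [← M1_revenue hN]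
  exact le_OPT _ _

theorem OPT_pos (hN : 2 < N) : 0 < OPT (DD K N hN) := by
  refine lt_of_lt_of_le ?_ (OPT_ge hN)
  refine div_pos ?_ (Z_pos hN)
  have := RR_pos (K := K) hN
  positivity

/-- The lookahead mechanism of the instance. -/
noncomputable def AA (K N : ℕ) (S : Finset (Fin (K + 2))) (_ : {j // j ∉ S} → ℝ) : Mechanism S :=
  if hS : S = k0 K then hS ▸ M0 K N else Mechanism.zero

theorem AA_k0 (z : {j // j ∉ k0 K} → ℝ) : AA K N (k0 K) z = M0 K N := by
  simp [AA]

theorem isLookahead_AA (hN : 2 < N) : IsLookahead (K + 1) (DD K N hN) (AA K N) := by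
  intro v hv
  rw [top_supp hN hv]
  intro M
  rw [AA_k0, M0_revenue hN hv]
  exact condRevenue_le hN hv M

theorem lookRevenue_le (hN : 2 < N)
    (A : (S : Finset (Fin (K + 2))) → ({j // j ∉ S} → ℝ) → Mechanism S) :
    lookRevenue (K + 1) (DD K N hN) A ≤ RR K N / Z K N := by
  let g : (S : Finset (Fin (K + 2))) → (Fin (K + 2) → ℝ) → ℝ := fun S v =>
    ∑ i, (A S (fun j => v j)).pay (fun j => v j) i
  let z : {j // j ∉ k0 K} → ℝ := fun _ => 1
  have h1 : lookRevenue (K + 1) (DD K N hN) A =
      ∑ v ∈ (DD K N hN).supp, (DD K N hN).prob v * ∑ i, (A (k0 K) z).pay (fun j => v j) i := by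
    unfold lookRevenue
    refine Finset.sum_congr rfl fun v hv => ?_
    congr 1
    show g (top (K + 1) v) v = _
    rw [top_supp hN hv]
    have hz : (fun j : {j // j ∉ k0 K} => v j) = z := by
      funext j
      obtain ⟨u, h, hh, rfl⟩ := mem_sup' hN hv
      have : j.1 = Fin.last (K + 1) := by
        have := j.2
        rw [mem_k0, not_not] at this
        exact this
      show prof K N h u j.1 = 1
      rw [this, prof_last]
    show ∑ i, (A (k0 K) (fun j => v j)).pay (fun j => v j) i = _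
    rw [hz]
  rw [h1, sum_prob (K := K) hN (fun v => ∑ i, (A (k0 K) z).pay (fun j : k0 K => v j) i)]
  exact div_le_div_of_nonneg_right (total hN (A (k0 K) z)) (Z_pos hN).le

theorem look_le (hN : 2 < N)
    (A : (S : Finset (Fin (K + 2))) → ({j // j ∉ S} → ℝ) → Mechanism S) :
    lookRevenue (K + 1) (DD K N hN) A ≤ RR K N / (RR K N + #(evs K N)) * OPT (DD K N hN) := by
  have hR := RR_pos (K := K) hN
  have h0 : (0 : ℝ) < RR K N + #(evs K N) := by positivity
  calc lookRevenue (K + 1) (DD K N hN) A ≤ RR K N / Z K N := lookRevenue_le hN A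
    _ = RR K N / (RR K N + #(evs K N)) * ((RR K N + #(evs K N)) / Z K N) := by
        have := (Z_pos (K := K) hN).ne'
        field_simp
    _ ≤ _ := mul_le_mul_of_nonneg_left (OPT_ge hN) (by positivity)

theorem ratio_eq (hN : 2 < N) (hK : 0 < K) :
    RR K N / #(evs K N) =
      2 * ((1 + (N : ℝ)⁻¹) / (1 - (N : ℝ)⁻¹)) * (1 + (N : ℝ)⁻¹) ^ K + 2 / (1 - 2 * (N : ℝ)⁻¹) := by
  have hNR : (2 : ℝ) < N := by exact_mod_cast hN
  have e1 := (two_mul_card_even (K := K) (m := 2 * N) hK (by simp)).1
  have e2 := (two_mul_card_even (K := K) (m := 2 * N + 2) hK (by simp [parity_simps])).2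
  have e3 : (#(evs K N) : ℝ) = (2 * N) ^ K / 2 := by
    have : (2 * #(evs K N) : ℝ) = (2 * N) ^ K := by exact_mod_cast e1
    linarith
  have e4 : (#(ods K N) : ℝ) = (2 * N + 2) ^ K / 2 := by
    have : (2 * #(ods K N) : ℝ) = (2 * N + 2) ^ K := by exact_mod_cast e2
    linarith
  have h1 : (N : ℝ) ≠ 0 := by linarith
  have h2 : (N : ℝ) - 1 ≠ 0 := by linarith
  have h3 : (N : ℝ) - 2 ≠ 0 := by linarith
  have h4 : (2 * (N : ℝ) + 2) ^ K = (2 * N) ^ K * (1 + (N : ℝ)⁻¹) ^ K := by
    rw [← mul_pow]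
    congr 1
    field_simp
  have h5 : (1 : ℝ) - (N : ℝ)⁻¹ = (N - 1) / N := by field_simp
  have h6 : (1 : ℝ) - 2 * (N : ℝ)⁻¹ = (N - 2) / N := by field_simp
  have h7 : (1 : ℝ) + (N : ℝ)⁻¹ = (N + 1) / N := by field_simp
  have h8 : (2 * (N : ℝ)) ^ K ≠ 0 := by positivity
  unfold RR mu mu'
  rw [e3, e4, h4, h5, h6]
  have h9 : (1 + (N : ℝ)⁻¹) / ((N - 1) / N) = (N + 1) / (N - 1) := by
    rw [h7]
    field_simp
  rw [h9]
  field_simp

/-- For large `N` the ratio is close to `4 / 5`. -/
theorem exists_N (hK : 0 < K) {ε : ℝ} (hε : 0 < ε) :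
    ∃ N : ℕ, 2 < N ∧ RR K N / (RR K N + #(evs K N)) ≤ 4 / 5 + ε := by
  have hc : Filter.Tendsto (fun s : ℝ => 2 * ((1 + s) / (1 - s)) * (1 + s) ^ K +
      2 / (1 - 2 * s)) (nhds 0) (nhds (2 * ((1 + 0) / (1 - 0)) * (1 + 0) ^ K +
      2 / (1 - 2 * 0))) := by
    have : ContinuousAt (fun s : ℝ => 2 * ((1 + s) / (1 - s)) * (1 + s) ^ K +
      2 / (1 - 2 * s)) 0 := by
      refine ContinuousAt.add (ContinuousAt.mul (ContinuousAt.mul continuousAt_const
        (ContinuousAt.div (by fun_prop) (by fun_prop) (by norm_num))) (by fun_prop))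
        (ContinuousAt.div (by fun_prop) (by fun_prop) (by norm_num))
    exact this
  have e4 : (2 * ((1 + 0) / (1 - 0)) * (1 + 0) ^ K + 2 / (1 - 2 * 0) : ℝ) = 4 := by
    simp; norm_num
  rw [e4] at hc
  have hN := hc.comp (tendsto_inv_atTop_nhds_zero_nat (𝕜 := ℝ))
  have h1 := (hN.eventually (gt_mem_nhds (show (4 : ℝ) < 4 + 5 * ε by linarith))).and
    (Filter.eventually_gt_atTop 2)
  obtain ⟨N, hN1, hN2⟩ := h1.exists
  refine ⟨N, hN2, ?_⟩
  simp only [Function.comp] at hN1
  rw [← ratio_eq hN2 hK] at hN1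
  have h2 : 0 < #(evs K N) := (evs_nonempty (by omega)).card_pos
  have h3 : (0 : ℝ) < #(evs K N) := by exact_mod_cast h2
  have hR := RR_pos (K := K) hN2
  rw [div_lt_iff₀ h3] at hN1
  rw [div_le_iff₀ (by positivity)]
  have h4 : 0 < ε * RR K N := mul_pos hε hR
  nlinarith

/-- The main instance. -/
theorem exists_instance (k : ℕ) (hk : 2 ≤ k) {ε : ℝ} (hε : 0 < ε) :
    ∃ (n : ℕ) (D : ValueLaw (Fin n)), 0 < OPT D ∧
      (∃ A : (K : Finset (Fin n)) → ({j // j ∉ K} → ℝ) → Mechanism K, IsLookahead k D A) ∧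
      ∀ A : (K : Finset (Fin n)) → ({j // j ∉ K} → ℝ) → Mechanism K, IsLookahead k D A →
        lookRevenue k D A ≤ (4 / 5 + ε) * OPT D := by
  obtain ⟨K, rfl⟩ : ∃ K, k = K + 1 := ⟨k - 1, by omega⟩
  obtain ⟨N, hN, h⟩ := exists_N (K := K) (by omega) hε
  refine ⟨K + 2, DD K N hN, OPT_pos hN, ⟨AA K N, isLookahead_AA hN⟩, fun A _ => ?_⟩
  exact (look_le hN A).trans (mul_le_mul_of_nonneg_right h (OPT_pos hN).le)

theorem rho_le (k : ℕ) (hk : 2 ≤ k) : rho k ≤ ((4 / 5 : ℝ) : EReal) := by
  refine EReal.le_of_forall_lt_iff_le.1 fun z hz => ?_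
  have hz' : (4 / 5 : ℝ) < z := by exact_mod_cast hz
  obtain ⟨n, D, h0, ⟨A, hA⟩, h⟩ := exists_instance k hk (sub_pos.2 hz')
  unfold rho
  refine (iInf_le _ n).trans ((iInf_le _ D).trans ((iInf_le _ A).trans ((iInf_le _ hA).trans
    ((iInf_le _ h0).trans ?_))))
  have h1 := h A hA
  have h2 : lookRevenue k D A / OPT D ≤ z := by
    rw [div_le_iff₀ h0]
    linarith
  exact_mod_cast h2

theorem not_tendsto : ¬ Filter.Tendsto rho Filter.atTop (nhds 1) := by
  intro h
  have h1 : (1 : EReal) ≤ ((4 / 5 : ℝ) : EReal) :=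
    le_of_tendsto h ((Filter.eventually_ge_atTop 2).mono fun k hk => rho_le k hk)
  have h2 : (1 : ℝ) ≤ 4 / 5 := by exact_mod_cast h1
  norm_num at h2

end Main

end Pool.Agent.Y581.Look
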